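import Pool.Agent.H71.CR.Stmt

/-! FXQ: finitely many classes of tuples of any length, together with parameters in `A`. -/

set_option autoImplicit false

open Set Pool.Agent.TK Pool.Agent.H71.VK

namespace Pool.Agent.CR

private lemma h13_zip_self {ζ : List ℕ} {z : ℕ × ℕ} : z ∈ ζ.zip ζ ↔ z.1 = z.2 ∧ z.1 ∈ ζ := by
  constructor
  · intro hz
    obtain ⟨i, hx, _, rfl⟩ := zip_get hz
    exact ⟨rfl, List.getElem_mem hx⟩
  · rintro ⟨h1, h2⟩
    obtain ⟨i, hi, h⟩ := List.mem_iff_getElem.1 h2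
    have e : z = (ζ[i], ζ[i]) := by
      refine Prod.ext h.symm ?_
      rw [← h1]
      exact h.symm
    rw [e]
    exact get_zip hi hi

theorem pf_FXQ (hREP : T_REP) (hFCT : T_FCT) : T_FXQ := by
  classical
  intro n c hn Y A hA ζ k Q hζ hQ
  obtain ⟨L, hLY, hL⟩ := (hFCT n c hn Y A).1 hA
  obtain ⟨E, hE1, hE2⟩ := hREP n c hn (L ++ ζ) k Q
  refine ⟨E, hE1, fun x hx hQx => ?_⟩
  obtain ⟨e, he, hlen, hpl⟩ := hE2 x hx hQx
  refine ⟨e, he, hlen.symm, fun D hD => ?_⟩
  have ez : (ζ ++ x).zip (ζ ++ e) = ζ.zip ζ ++ x.zip e := List.zip_append rfl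
  have hm : ∀ y : List ℕ, (∀ a ∈ y, a ∈ A) → ∀ a ∈ ζ ++ y, a ∈ A := by
    intro y hy a ha
    rcases List.mem_append.1 ha with h | h
    · exact hζ a h
    · exact hy a h
  have h1 := hL (ζ ++ x) (ζ ++ e) (by rw [List.length_append, List.length_append, hlen])
    (hm x (hQ x hQx)) (hm e (hQ e (hE1 e he))) (by
      rw [ez]
      refine hpl.mono fun z hz => ?_
      rw [dg_append]
      simp only [List.mem_append, h13_zip_self, mem_dg] at hz ⊢
      rcases hz with hz | hz | hz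
      · exact Or.inl (Or.inl hz)
      · exact Or.inl (Or.inr hz)
      · exact Or.inr hz)
  have h2 := h1.2 (D.filter fun y => decide (y ∈ Y)) (fun y hy =>
    of_decide_eq_true (List.mem_filter.1 hy).2)
  rw [ez] at h2
  refine h2.mono fun z hz => ?_
  simp only [List.mem_append, h13_zip_self, mem_dg] at hz ⊢
  rcases hz with hz | hz
  · rcases hD z.1 hz.2 with h3 | h3
    · exact Or.inl ⟨hz.1, List.mem_filter.2 ⟨hz.2, decide_eq_true h3⟩⟩
    · exact Or.inr (Or.inl ⟨hz.1, h3⟩)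
  · exact Or.inr (Or.inr hz)

end Pool.Agent.CR
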