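import Pool.Agent.H71.CR.Stmt

/-! GLA: gluing of an automorphism of a piece. -/

set_option autoImplicit false

open Set Pool.Agent.TK Pool.Agent.H71.VK

namespace Pool.Agent.CR

private lemma h13g_zip_self {ζ : List ℕ} {z : ℕ × ℕ} (hz : z ∈ dg ζ) : z ∈ ζ.zip ζ := by
  obtain ⟨h1, h2⟩ := mem_dg.1 hz
  obtain ⟨i, hi, h⟩ := List.mem_iff_getElem.1 h2
  have e : z = (ζ[i], ζ[i]) := by
    refine Prod.ext h.symm ?_
    rw [← h1]
    exact h.symm
  rw [e]
  exact get_zip hi hi

theorem pf_GLA {C : Type} {c0 : C} : T_GLA C c0 := by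
  classical
  intro n M hM π hV g hg
  obtain ⟨m1, m2, -⟩ := hM
  have hb : BijOn g (st (bn M) π) (st (bn M) π) := hg.2.1
  let e : st (bn M) π ≃ st (bn M) π := hb.equiv g
  let f : Equiv.Perm ℕ := Equiv.Perm.ofSubtype (p := fun x => x ∈ st (bn M) π) e
  have f1 : ∀ a ∈ st (bn M) π, f a = g a := fun a ha => by
    have := Equiv.Perm.ofSubtype_apply_of_mem (p := fun x => x ∈ st (bn M) π) e ha
    exact this
  have f2 : ∀ x, x ∉ st (bn M) π → f x = x := fun x hx =>
    Equiv.Perm.ofSubtype_apply_of_not_mem _ hx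
  refine ⟨f, ⟨fun u v => ?_, fun l => Prod.ext ?_ ?_⟩, f1, f2⟩
  · rw [m1, m1]
    congr 1
    rw [ne_eq, ne_eq, f.injective.eq_iff]
  · by_cases hl : l.length = 1
    · obtain ⟨a, rfl⟩ := List.length_eq_one_iff.1 hl
      change (M.2 [a]).1 = (M.2 [f a]).1
      by_cases ha : a ∈ st (bn M) π
      · rw [f1 a ha]
        have h1 := (hg.2.2 [a] (by simpa using ha)).2.2 [(a, g a)] (by simp)
        exact congrArg Prod.fst h1
      · rw [f2 a ha]
    · rw [m2 l hl, m2 (l.map f) (by rw [List.length_map]; exact hl)]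
  · -- the labels
    let x := l.filter fun a => decide (a ∈ st (bn M) π)
    let D := l.filter fun a => decide (a ∉ st (bn M) π)
    have hx : ∀ a ∈ x, a ∈ st (bn M) π := fun a ha => of_decide_eq_true (List.mem_filter.1 ha).2
    have h1 : Pl (bn M) (bn M) (dg (zl π) ++ x.map fun z => (z, g z)) := by
      intro q hq
      refine congrArg Prod.snd ((hg.2.2 x hx).2.2 q fun z hz => ?_)
      rcases List.mem_append.1 (hq z hz) with h | h
      · exact List.mem_append_left _ (h13g_zip_self h)
      · exact List.mem_append_right _ h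
    have h2 := ctl hV (p := x.map fun z => (z, g z)) (fun z hz => by
      obtain ⟨a, ha, rfl⟩ := List.mem_map.1 hz
      exact ⟨hx a ha, hb.mapsTo (hx a ha)⟩) h1 (D := D) fun a ha =>
        of_decide_eq_true (List.mem_filter.1 ha).2
    have h3 := h2 (l.map fun a => (a, f a)) (by
      intro z hz
      obtain ⟨a, ha, rfl⟩ := List.mem_map.1 hz
      by_cases haP : a ∈ st (bn M) π
      · refine List.mem_append_right _ (List.mem_append_right _ ?_)
        rw [f1 a haP]
        exact List.mem_map_of_mem (f := fun z => (z, g z))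
          (List.mem_filter.2 ⟨ha, decide_eq_true haP⟩)
      · refine List.mem_append_left _ ?_
        rw [f2 a haP]
        exact mem_dg.2 ⟨rfl, List.mem_filter.2 ⟨ha, decide_eq_true haP⟩⟩)
    rw [List.map_map, List.map_map] at h3
    have e1 : l.map (Prod.fst ∘ fun a => (a, f a)) = l := by
      conv_rhs => rw [← List.map_id l]
      rfl
    rw [e1] at h3
    exact h3

end Pool.Agent.CR
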