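import Pool.Agent.H71.CR.Stmt2

/-! GMA: from directions to the Borel form. -/

set_option autoImplicit false

open Set Pool.Agent.TK Pool.Agent.H71.VK

namespace Pool.Agent.CR

private lemma h13m_zip : ∀ p : List (ℕ × ℕ), (p.map Prod.fst).zip (p.map Prod.snd) = p
  | [] => rfl
  | z :: p => by
    rw [List.map_cons, List.map_cons, List.zip_cons_cons, h13m_zip p]

open Classical in
theorem pf_GMA (hFCT : T_FCT) (hFIA : T_FIA) : T_GMA := by
  intro n c hn m hA f hf1 hf2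
  obtain ⟨hcomp, hint, hfin⟩ := hFIA n c hn
  -- the sets on which two of the germs agree, and the finite sets
  let Gd : Set ℕ → Prop := fun A => Fi n c A ∧ ∃ i j, i ≠ j ∧ SO c A (f i) (f j)
  let 𝒜 : Set (Set ℕ) := {A | Fi n c A ∧ (A.Finite ∨ ∃ i j, i ≠ j ∧ SO c A (f i) (f j))}
  have hcov : ∃ t ⊆ 𝒜, t.Finite ∧ ⋃₀ t = univ := by
    by_contra hcon
    push Not at hcon
    have hne : (Filter.generate (compl '' 𝒜)).NeBot := by
      rw [Filter.generate_neBot_iff]
      intro t ht htf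
      have h1 : ⋃₀ (compl '' t) ≠ univ := by
        refine hcon (compl '' t) ?_ (htf.image _)
        rintro _ ⟨B, hB, rfl⟩
        obtain ⟨A, hA, rfl⟩ := ht hB
        rwa [compl_compl]
      rw [Set.nonempty_iff_ne_empty]
      intro h2
      apply h1
      rw [← Set.compl_sInter, h2, compl_empty]
    let V : Ultrafilter ℕ := Ultrafilter.of (Filter.generate (compl '' 𝒜))
    have hV : ∀ A ∈ 𝒜, Aᶜ ∈ V := fun A hA =>
      Ultrafilter.of_le _ (Filter.mem_generate_of_mem ⟨A, hA, rfl⟩)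
    have hU : Dirn n c {A | Fi n c A ∧ A ∈ V} := by
      constructor
      · exact fun A hA => hA.1
      · exact fun A hA B hB hAB => ⟨hB, Filter.mem_of_superset hA.2 hAB⟩
      · exact fun A hA B hB => ⟨hint A B hA.1 hB.1, Filter.inter_mem hA.2 hB.2⟩
      · intro A hA
        rcases V.mem_or_compl_mem A with h | h
        · exact Or.inl ⟨hA, h⟩
        · exact Or.inr ⟨hcomp A hA, h⟩
      · intro A hA hAf
        have h1 := hV A ⟨hA.1, Or.inl hAf⟩
        exact Ultrafilter.compl_mem_iff_notMem.1 h1 hA.2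
    obtain ⟨i, j, hij, A, hAU, hAg⟩ := hA _ hU f hf1 hf2
    have h1 := hV A ⟨hAU.1, Or.inr ⟨i, j, hij, hAg⟩⟩
    exact Ultrafilter.compl_mem_iff_notMem.1 h1 hAU.2
  obtain ⟨t, ht, htf, htu⟩ := hcov
  -- control lists
  have hS : ∀ A : Set ℕ, ∃ (S : List ℕ) (i j : Fin (m + 1)), Gd A → i ≠ j ∧
      SO c A (f i) (f j) ∧ (∀ a ∈ S, a ∈ Aᶜ) ∧ ∀ x x' : List ℕ, x.length = x'.length →
      (∀ a ∈ x, a ∈ A) → (∀ a ∈ x', a ∈ A) → Pl c c (dg S ++ x.zip x') → SO c Aᶜ x x' := by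
    intro A
    by_cases hG : Gd A
    · obtain ⟨h1, i, j, hij, h2⟩ := hG
      obtain ⟨S, hS1, hS2⟩ := (hFCT n c hn Aᶜ A).1 h1
      exact ⟨S, i, j, fun _ => ⟨hij, h2, hS1, hS2⟩⟩
    · exact ⟨[], 0, 0, fun h => absurd h hG⟩
  choose S I J hSIJ using hS
  have htf' : {A | A ∈ t ∧ Gd A}.Finite := htf.subset fun A hA => hA.1
  let T : List (Set ℕ) := htf'.toFinset.toList
  have hT : ∀ A, A ∈ T ↔ A ∈ t ∧ Gd A := by
    intro A
    rw [Finset.mem_toList, Set.Finite.mem_toFinset]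
    rfl
  -- a bound for the finite part
  have hbd : {x | ∃ A ∈ t, A.Finite ∧ x ∈ A}.Finite := by
    refine ((htf.subset (sep_subset t fun A => A.Finite)).sUnion (fun A hA => hA.2)).subset ?_
    rintro x ⟨A, hA, hAf, hx⟩
    exact ⟨A, ⟨hA, hAf⟩, hx⟩
  obtain ⟨N, hN⟩ := hbd.bddAbove
  refine ⟨N + 1, T.map fun A => (S A, I A, J A), ?_, fun M => ?_⟩
  · intro l hl
    obtain ⟨A, hA, rfl⟩ := List.mem_map.1 hl
    exact (hSIJ A ((hT A).1 hA).2).1
  refine ⟨T.map fun A => ((S A, I A, J A), (Finset.range M).filter fun y => y ∈ A), ?_, ?_, ?_⟩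
  · rw [List.map_map]
    rfl
  · intro k hk
    obtain ⟨A, hA, rfl⟩ := List.mem_map.1 hk
    obtain ⟨-, h2, h3, h4⟩ := hSIJ A ((hT A).1 hA).2
    have hmem : ∀ y, y ∈ (((Finset.range M).filter fun y => y ∈ A : Finset ℕ) : Set ℕ) ↔
        y < M ∧ y ∈ A := by
      intro y
      rw [Finset.mem_coe, Finset.mem_filter, Finset.mem_range]
    refine ⟨fun y hy => ((hmem y).1 (Finset.mem_coe.2 hy)).1, ?_, h2.1, fun D hD => ?_⟩
    · intro p hp hpl D hD
      have h5 := h4 (p.map Prod.fst) (p.map Prod.snd) (by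
        rw [List.length_map, List.length_map]) (fun a ha => by
          obtain ⟨z, hz, rfl⟩ := List.mem_map.1 ha
          exact ((hmem _).1 (hp z hz).1).2) (fun a ha => by
          obtain ⟨z, hz, rfl⟩ := List.mem_map.1 ha
          exact ((hmem _).1 (hp z hz).2).2) (by rw [h13m_zip]; exact hpl)
      have h6 := h5.2 (D ++ S A) (fun a ha => by
        rcases List.mem_append.1 ha with ha | ha
        · intro haA
          exact (hD a ha).2 ((hmem a).2 ⟨(hD a ha).1, haA⟩)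
        · exact h3 a ha)
      rw [h13m_zip, dg_append, List.append_assoc] at h6
      exact h6
    · exact h2.2 D fun y hy => ((hmem y).1 (hD y hy)).2
  · intro y hy hyM
    have hyt : y ∈ ⋃₀ t := by
      rw [htu]
      exact mem_univ y
    obtain ⟨A, hAt, hyA⟩ := hyt
    obtain ⟨hAF, h | ⟨i, j, hij, hag⟩⟩ := ht hAt
    · have := hN ⟨A, hAt, h, hyA⟩
      omega
    · exact ⟨_, List.mem_map_of_mem ((hT A).2 ⟨hAt, hAF, i, j, hij, hag⟩),
        Finset.mem_filter.2 ⟨Finset.mem_range.2 hyM, hyA⟩⟩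

end Pool.Agent.CR
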