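import Pool.Agent.H71.CR.Stmt

/-! PFI: pieces have finite index. -/

set_option autoImplicit false

open Set Pool.Agent.TK Pool.Agent.H71.VK

namespace Pool.Agent.CR

theorem pf_PFI (hFCT : T_FCT) : T_PFI := by
  intro n c hn π hv
  refine (hFCT n c hn (st c π)ᶜ (st c π)).2 ⟨zl π, fun x x' hlen hx hx' hpl =>
    ⟨hlen, fun D hD => ?_⟩⟩
  have h1 := ctl hv (p := x.zip x') (fun z hz => ?_) hpl (D := D) hD
  · refine h1.mono fun z hz => ?_
    simp only [List.mem_append] at hz ⊢
    rcases hz with hz | hz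
    · exact Or.inl hz
    · exact Or.inr (Or.inr hz)
  · have h2 := List.of_mem_zip (show (z.1, z.2) ∈ x.zip x' from hz)
    exact ⟨hx _ h2.1, hx' _ h2.2⟩

end Pool.Agent.CR
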