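import Pool.Agent.H71.CR.Stmt

/-! TIC: associativity. -/

set_option autoImplicit false

open Set Pool.Agent.TK Pool.Agent.H71.VK

namespace Pool.Agent.CR

private lemma h13t_mb_congr {n : Bd} {c : Lf} {Sm : Pr → Prop} (G : GS n c Sm) {π : Pr}
    {X X' w : List ℕ} (h : X ⊆ X') (h' : X' ⊆ X) (hw : G.Mb π X w) : G.Mb π X' w := by
  intro a ha
  obtain ⟨h1, h2⟩ := hw a ha
  refine ⟨h1, fun h3 => h2 ?_⟩
  have e1 : G.sup (a :: X) ⊆ G.sup (a :: X') := G.mono _ _ fun b hb => by
    rcases List.mem_cons.1 hb with rfl | hb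
    · exact List.mem_cons_self
    · exact List.mem_cons_of_mem _ (h hb)
  exact (e1.trans h3).trans (G.mono _ _ h')

private lemma h13t_in_symm {n : Bd} {c : Lf} {Sm : Pr → Prop} (G : GS n c Sm)
    {X u w : List ℕ} (h : G.In X u w) : G.In X w u := fun j h1 h2 => h j h2 h1

theorem pf_TIC (hCOP : T_COP) (hMBI : T_MBI) (hFAR : T_FAR) (hTIA : T_TIA) (hTIB : T_TIB) :
    T_TIC := by
  intro n c Sm G π B hB u v w hlen huvw huv
  obtain ⟨tU, tS, tM, tP⟩ := hTIB n c Sm G π B hB
  refine ⟨?_, tM _ _ _ _ (List.subset_append_right _ _) (fun a ha => ha) huvw⟩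
  obtain ⟨u1, v1, mu1, mv1, iuv, lu, lv, puv⟩ := huv
  have huvw' := huvw
  obtain ⟨z, w1, mz, mw1, izw, lz, lw, pzw⟩ := huvw
  -- `w` and `w1`
  have pw1 : Pl c c (dg B ++ w.zip w1) := by
    refine pzw.mono fun q hq => ?_
    rw [List.zip_append lz]
    simp only [List.mem_append] at hq ⊢
    tauto
  obtain ⟨w2, lw2, pw2, mw2, iw2, fw2⟩ := hFAR n c Sm G π B hB.dlB w1 mw1 (u1 ++ v1)
  have mb1 : G.Mb π B (u1 ++ v1) := by
    intro a ha
    rcases List.mem_append.1 ha with ha | ha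
    · exact mu1 a ha
    · exact mv1 a ha
  have ti1 : G.TI π B (u1 ++ v1) w2 := ⟨u1 ++ v1, w2, mb1, mw2, iw2, rfl, rfl, pl_diag (by
    intro q hq
    rcases List.mem_append.1 hq with hq | hq
    · exact (mem_dg.1 hq).1
    · obtain ⟨i, hx, hy, rfl⟩ := zip_get hq
      rfl)⟩
  have luv : (u ++ v).length = (u1 ++ v1).length := by
    rw [List.length_append, List.length_append, lu, lv]
  have p1 : Pl c c (dg B ++ ((u ++ v) ++ w).zip ((u1 ++ v1) ++ w2)) :=
    tU _ _ _ _ luv (lw.trans lw2) huvw' ti1 puv (Pl.zip_trans lw pw1 pw2)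
  -- the copy
  have hBX : B ⊆ v1 ++ B := List.subset_append_right _ _
  have mu1X : G.Mb π (v1 ++ B) u1 := hMBI n c Sm G π B v1 u1 mu1 (h13t_in_symm G iuv)
  obtain ⟨p, hpK, hp1, hp2, hp3, hp4, hp5⟩ := hCOP n c Sm G π (v1 ++ B)
    (fun a ha => hBX (hB.dlB ha)) w2 (G.sup (u1 ++ (v1 ++ B)))
  have mw2X : G.Mb π (v1 ++ B) w2 := fw2 _ hBX (by
    intro a ha
    simp only [List.mem_append] at ha ⊢
    tauto)
  have mw2X' : G.Mb π (u1 ++ (v1 ++ B)) w2 := fw2 _ (by
    intro a ha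
    simp only [List.mem_append]
    tauto) (by
    intro a ha
    simp only [List.mem_append] at ha ⊢
    tauto)
  set w3 := w2.map p.1 with hw3
  have mw3X : G.Mb π (v1 ++ B) w3 := hp5 mw2X
  have mw3 : G.Mb π B w3 := by
    intro a' ha'
    refine ⟨(mw3X a' ha').1, fun h => ?_⟩
    obtain ⟨a, ha, rfl⟩ := List.mem_map.1 ha'
    apply (mw2 a ha).2
    have eB : B.map p.1 = B := by
      conv_rhs => rw [← List.map_id B]
      exact List.map_congr_left fun x hx => hp1 x (hBX hx)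
    intro j hj
    have h1 := (G.eqv p hpK (a :: B) j).1 hj
    rw [List.map_cons, eB] at h1
    have h2 := h h1
    rw [← eB] at h2
    exact (G.eqv p hpK B j).2 h2
  have iuw3 : G.In (v1 ++ B) u1 w3 := by
    intro j h1 h2
    by_contra h3
    exact hp3 j h2 h3 h1
  have mu1X' : G.Mb π (w3 ++ (v1 ++ B)) u1 := hMBI n c Sm G π _ w3 u1 mu1X (h13t_in_symm G iuw3)
  have mw3X' : G.Mb π (u1 ++ (v1 ++ B)) w3 := hMBI n c Sm G π _ u1 w3 mw3X iuw3
  have lw3 : w2.length = w3.length := (List.length_map _).symm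
  have p2 : Pl c c (dg (u1 ++ (v1 ++ B)) ++ w2.zip w3) := by
    refine hB.uq _ ?_ w2 w3 lw3 mw2X' mw3X' ?_
    · intro a ha
      simp only [List.mem_append]
      tauto
    · refine hp4.mono fun q hq => ?_
      rw [dg_append]
      simp only [List.mem_append] at hq ⊢
      tauto
  have p3 : Pl c c (dg B ++ (u1 ++ (v1 ++ w2)).zip (u1 ++ (v1 ++ w3))) := by
    refine p2.mono fun q hq => ?_
    rw [List.zip_append rfl, List.zip_append rfl] at hq
    simp only [List.mem_append, mem_dg] at hq ⊢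
    rcases hq with hq | hq | hq | hq
    · exact Or.inl ⟨hq.1, Or.inr (Or.inr hq.2)⟩
    · obtain ⟨i, hx, hy, rfl⟩ := zip_get hq
      exact Or.inl ⟨rfl, Or.inl (List.getElem_mem hx)⟩
    · obtain ⟨i, hx, hy, rfl⟩ := zip_get hq
      exact Or.inl ⟨rfl, Or.inr (Or.inl (List.getElem_mem hx))⟩
    · exact Or.inr hq
  -- type independence
  have ti2 : G.TI π B (v1 ++ w3) u1 := by
    refine hTIA n c Sm G π B hB (v1 ++ w3) u1 ?_ ⟨B, fun a ha => ha, ?_⟩ ⟨u1, ?_, rfl, ?_⟩
    · rw [List.length_append]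
      omega
    · intro a ha
      rcases List.mem_append.1 ha with ha | ha
      · exact mv1 a ha
      · exact mw3 a ha
    · refine h13t_mb_congr G ?_ ?_ mu1X'
      · intro a ha
        simp only [List.mem_append] at ha ⊢
        tauto
      · intro a ha
        simp only [List.mem_append] at ha ⊢
        tauto
    · refine pl_diag ?_
      intro q hq
      rcases List.mem_append.1 hq with hq | hq
      · exact (mem_dg.1 hq).1
      · obtain ⟨i, hx, hy, rfl⟩ := zip_get hq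
        rfl
  have p4 : Pl c c (dg B ++ (u ++ (v ++ w)).zip (u1 ++ (v1 ++ w3))) := by
    rw [List.append_assoc, List.append_assoc] at p1
    refine Pl.zip_trans ?_ p1 p3
    simp only [List.length_append]
    omega
  refine tP u1 (v1 ++ w3) u (v ++ w) lu.symm ?_ (tS _ _ ti2) p4.zip_symm
  rw [List.length_append, List.length_append]
  omega

end Pool.Agent.CR
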