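import Pool.Agent.H71.CR.Stmt

/-! TID: regrouping. -/

set_option autoImplicit false

open Set Pool.Agent.TK Pool.Agent.H71.VK

namespace Pool.Agent.CR

theorem pf_TID (hTIB : T_TIB) (hTIC : T_TIC) : T_TID := by
  intro n c Sm G π B hB u1 v1 u2 v2 hlen h12 h1 h2
  obtain ⟨-, tS, tM, -⟩ := hTIB n c Sm G π B hB
  obtain ⟨a1, a2⟩ := hTIC n c Sm G π B hB u1 v1 (u2 ++ v2)
    (by rw [List.length_append]; omega) h12 h1
  obtain ⟨b1, -⟩ := hTIC n c Sm G π B hB u2 v2 v1 (by omega) (tS _ _ a2) h2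
  have c1 : G.TI π B ((v2 ++ v1) ++ u2) u1 := by
    refine tM _ _ _ _ ?_ (fun a ha => ha) (tS _ _ a1)
    intro a ha
    simp only [List.mem_append] at ha ⊢
    tauto
  obtain ⟨d1, -⟩ := hTIC n c Sm G π B hB (v2 ++ v1) u2 u1
    (by rw [List.length_append]; omega) c1 (tS _ _ b1)
  refine tM _ _ _ _ ?_ ?_ (tS _ _ d1)
  · intro a ha
    simp only [List.mem_append] at ha ⊢
    tauto
  · intro a ha
    simp only [List.mem_append] at ha ⊢
    tauto

end Pool.Agent.CR
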